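import Mathlib
import Pool.Agent.Q31.GLW.Fin2

/-!
# MP_2f8bd9_al: proper subgroups inducing `GL(U)` on large subspaces, countable fields

Let `F` be a countable field (finite or infinite) and `dim V = ℵ₀`. For at most `ℵ₁` pairs `(U, g)`, `U` large,
`g` in `GL(U)`, there is a proper subgroup `H` of `GL(V)` with `g ∈ H^U` for all these pairs. So under the
continuum hypothesis there is a proper subgroup `H` with `H^U = GL(U)` for every large subspace `U`.
-/

set_option autoImplicit false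

namespace Pool.Agent.Results.MP_2f8bd9_al.CounterexampleUnderCH

open Cardinal

variable {F V : Type} [Field F] [AddCommGroup V] [Module F V]

/-- The subspace `U` is large: its dimension and its codimension are equal to the dimension of `V`. -/
def IsLarge (U : Submodule F V) : Prop :=
  Module.rank F U = Module.rank F V ∧ Module.rank F (V ⧸ U) = Module.rank F V

/-- `H^U`: the restrictions to `U` of the elements `h` of `H` with `h(U) = U`. -/
def induced (H : Subgroup (V ≃ₗ[F] V)) (U : Submodule F V) : Set (U ≃ₗ[F] U) :=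
  {g | ∃ h ∈ H, U.map (h : V →ₗ[F] V) = U ∧ ∀ u : U, h (u : V) = (g u : V)}

theorem mem_induced {H : Subgroup (V ≃ₗ[F] V)} {U : Submodule F V} {g : U ≃ₗ[F] U}
    (h1 : ∃ h ∈ H, ∀ u : U, h (u : V) = (g u : V)) : g ∈ induced H U := by
  obtain ⟨h, hh, h3⟩ := h1
  refine ⟨h, hh, ?_, h3⟩
  apply le_antisymm
  · rintro _ ⟨u, hu, rfl⟩
    have h4 : h u = (g ⟨u, hu⟩ : V) := h3 ⟨u, hu⟩
    change h u ∈ U
    rw [h4]
    exact (g ⟨u, hu⟩).2
  · intro u hu
    refine ⟨(g.symm ⟨u, hu⟩ : V), (g.symm ⟨u, hu⟩).2, ?_⟩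
    have h4 := h3 (g.symm ⟨u, hu⟩)
    change h _ = u
    rw [h4, LinearEquiv.apply_symm_apply]

/-- **Theorem.** Let `V` be a vector space of dimension `ℵ₀` over a countable field `F`. For every set `T`
of at most `ℵ₁` pairs `(U, g)`, `U` a large subspace and `g` in `GL(U)`, there is a subgroup `H` of `GL(V)`,
different from `GL(V)`, such that `g ∈ H^U` for all pairs in `T`. If the continuum hypothesis holds then
there is a subgroup `H` of `GL(V)`, different from `GL(V)`, with `H^U = GL(U)` for every large `U`. -/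
theorem result (F V : Type) [Field F] [AddCommGroup V] [Module F V]
    [Countable F] (hV : Module.rank F V = ℵ₀) :
    (∀ T : Set (Σ U : Submodule F V, (U ≃ₗ[F] U)), #T ≤ ℵ₁ → (∀ τ ∈ T, IsLarge τ.1) →
      ∃ H : Subgroup (V ≃ₗ[F] V), H ≠ ⊤ ∧ ∀ τ ∈ T, τ.2 ∈ induced H τ.1) ∧
    ((ℵ₁ : Cardinal.{0}) = 𝔠 → ∃ H : Subgroup (V ≃ₗ[F] V), H ≠ ⊤ ∧
      ∀ U : Submodule F V, IsLarge U → induced H U = Set.univ) := by
  refine ⟨fun T hT hL => ?_, fun CH => ?_⟩
  · obtain ⟨H, h1, h2⟩ := Pool.Agent.Q31.GLW.tasks F V hV T hT fun τ hτ => (hL τ hτ).2.trans hV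
    exact ⟨H, h1, fun τ hτ => mem_induced (h2 τ hτ)⟩
  · obtain ⟨H, h1, h2⟩ := Pool.Agent.Q31.GLW.main CH F V hV
    exact ⟨H, h1, fun U hU => Set.eq_univ_of_forall fun g => mem_induced (h2 U (hU.2.trans hV) g)⟩

end Pool.Agent.Results.MP_2f8bd9_al.CounterexampleUnderCH
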