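import Mathlib
import Pool.Agent.Q31.GLV.Main

/-!
# MP_2f8bd9_al: subgroups of `GL(V)` inducing the full linear group on all large subspaces

If the field `F` has more elements than the infinite dimension of `V`, a subgroup `H` of `GL(V)` with
`H^U = GL(U)` for every large subspace `U` is `GL(V)`.
-/

set_option autoImplicit false

namespace Pool.Agent.Results.MP_2f8bd9_al.FieldLargerThanDimension

open Cardinal

variable {F V : Type} [Field F] [AddCommGroup V] [Module F V]

/-- The subspace `U` is large: its dimension and its codimension are equal to the dimension of `V`. -/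
def IsLarge (U : Submodule F V) : Prop :=
  Module.rank F U = Module.rank F V ∧ Module.rank F (V ⧸ U) = Module.rank F V

/-- `H^U`: the restrictions to `U` of the elements `h` of `H` with `h(U) = U`. -/
def induced (H : Subgroup (V ≃ₗ[F] V)) (U : Submodule F V) : Set (U ≃ₗ[F] U) :=
  {g | ∃ h ∈ H, U.map (h : V →ₗ[F] V) = U ∧ ∀ u : U, h (u : V) = (g u : V)}

/-- **Theorem.** Let `V` be a vector space of infinite dimension `κ` over a field `F` with more than `κ`
elements. If a subgroup `H` of `GL(V)` satisfies `H^U = GL(U)` for every large subspace `U` then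
`H = GL(V)`. -/
theorem result (F V : Type) [Field F] [AddCommGroup V] [Module F V]
    (hV : ℵ₀ ≤ Module.rank F V) (hF : Module.rank F V < #F) (H : Subgroup (V ≃ₗ[F] V))
    (hH : ∀ U : Submodule F V, IsLarge U → induced H U = Set.univ) : H = ⊤ := by
  refine Pool.Agent.Q31.GLV.main F V hV hF H fun U hU g => ?_
  obtain ⟨h, hh, -, h2⟩ : g ∈ induced H U := by
    rw [hH U hU]
    exact Set.mem_univ g
  exact ⟨h, hh, h2⟩

end Pool.Agent.Results.MP_2f8bd9_al.FieldLargerThanDimension
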